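import Mathlib
import Pool.Agent.Helper14.GBX.CW

/-!
For a connected one-dimensional CW complex `Γ` (no finiteness assumption) and `m ≤ n` there is a
continuous map from the unordered configuration space of `m` points of `Γ` to that of `n` points
which is injective on fundamental groups. In particular `B_m(Γ)` embeds into `B_n(Γ)`.
-/

set_option autoImplicit false

universe u

open Topology

namespace Pool.Agent.Results.MP_e4a041_al.BraidGroupsEmbed

/-- The unordered configuration space `UC_k(Y)`: the space of injective `k`-tuples of points of `Y`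
(with the topology induced from the product `Y ^ k`) modulo permutations of the entries. -/
def UConf (k : ℕ) (Y : Type u) : Type u :=
  Quot (fun f g : {f : Fin k → Y // Function.Injective f} =>
    ∃ s : Equiv.Perm (Fin k), g.1 = f.1 ∘ s)

/-- The quotient topology on `UC_k(Y)`. -/
instance topUConf (k : ℕ) (Y : Type u) [TopologicalSpace Y] : TopologicalSpace (UConf k Y) :=
  inferInstanceAs (TopologicalSpace (Quot (fun f g : {f : Fin k → Y // Function.Injective f} =>
    ∃ s : Equiv.Perm (Fin k), g.1 = f.1 ∘ s)))

/-- The braid group `B_k(Y) = π₁(UC_k(Y))` with base point `x`. -/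
abbrev BraidGroup (k : ℕ) (Y : Type u) [TopologicalSpace Y] (x : UConf k Y) : Type u :=
  FundamentalGroup (UConf k Y) x

/-- Let `Γ` be a connected one-dimensional CW complex: it has a `1`-cell and no cell of dimension at
least `2`. Then every space `UC_k(Γ)` is path-connected, and for all `m ≤ n` some continuous map
`UC_m(Γ) → UC_n(Γ)` is injective on fundamental groups at every base point; in particular the graph
braid group `B_m(Γ)` embeds into `B_n(Γ)`, whatever the base points. -/
theorem result (X : Type u) [TopologicalSpace X] [T2Space X] (Γ : Set X) [Topology.CWComplex Γ]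
    (hconn : IsConnected Γ)
    (hone : Nonempty (Topology.RelCWComplex.cell Γ 1))
    (htwo : ∀ k : ℕ, 2 ≤ k → IsEmpty (Topology.RelCWComplex.cell Γ k)) :
    (∀ k : ℕ, PathConnectedSpace (UConf k Γ)) ∧
    ∀ m n : ℕ, m ≤ n →
      (∃ F : C(UConf m Γ, UConf n Γ), ∀ x : UConf m Γ,
        Function.Injective (FundamentalGroup.map F x)) ∧
      ∀ (x : UConf m Γ) (y : UConf n Γ),
        ∃ φ : BraidGroup m Γ x →* BraidGroup n Γ y, Function.Injective φ := by
  have hc : ConnectedSpace Γ := isConnected_iff_connectedSpace.1 hconn
  obtain ⟨e0⟩ := hone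
  let G := Helper14.GBX.cwGraph Γ htwo
  have hY : PathConnectedSpace Γ := G.pathConnectedSpace
  have hU : ∀ k : ℕ, PathConnectedSpace (UConf k Γ) :=
    fun k => (G.arc e0).pathConnectedSpace k
  refine ⟨hU, fun m n hmn => ?_⟩
  obtain ⟨F, hF⟩ := G.exists_piInj e0 hmn
  refine ⟨⟨F, fun x => hF.injective x⟩, fun x y => ?_⟩
  have hUn : PathConnectedSpace (Helper14.GBX.UC n Γ) := (G.arc e0).pathConnectedSpace n
  exact Helper14.GBX.exists_hom F hF x y

end Pool.Agent.Results.MP_e4a041_al.BraidGroupsEmbed
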